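import Pool.Agent.Q62.RN.Stm

/-! Project RN, lemma B3. -/

open MeasureTheory Filter Topology Set
open scoped ContDiff ENNReal

namespace Pool.Agent.Q297.RN

open Pool.Agent.Q62.RN

theorem t_B3 : S_B3 := by
  intro l hl
  have : Nonempty (Ioo (0:ℝ) l) := ⟨⟨l / 2, by constructor <;> linarith⟩⟩
  set q : ℕ → Ioo (0:ℝ) l := TopologicalSpace.denseSeq (Ioo (0:ℝ) l) with hq
  have hdense : DenseRange q := TopologicalSpace.denseRange_denseSeq _
  set fp : Measure ℂ := Measure.sum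
    (fun j : ℕ => ((2:ℝ≥0∞)⁻¹ ^ (j + 1)) • Measure.dirac (((q j : ℝ) : ℂ))) with hfp
  have hS0 : MeasurableSet (S0 l) :=
    (isCompact_Icc.image Complex.continuous_ofReal).isClosed.measurableSet
  have happ : ∀ A : Set ℂ, MeasurableSet A → fp A = ∑' j : ℕ, (2:ℝ≥0∞)⁻¹ ^ (j + 1) *
      A.indicator 1 ((q j : ℝ) : ℂ) := by
    intro A hA
    rw [hfp, Measure.sum_apply _ hA]
    refine tsum_congr fun j => ?_
    rw [Measure.smul_apply, Measure.dirac_apply' _ hA, smul_eq_mul]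
  refine ⟨fp, ⟨⟨?_⟩, ?_, ?_⟩, ?_⟩
  · rw [happ _ MeasurableSet.univ]
    simp only [indicator_univ, Pi.one_apply, mul_one]
    rw [ENNReal.tsum_geometric_add_one, ENNReal.one_sub_inv_two, inv_inv,
      ENNReal.inv_mul_cancel (by norm_num) (by norm_num)]
  · rw [happ _ hS0.compl, ENNReal.tsum_eq_zero]
    intro j
    rw [indicator_of_notMem, mul_zero]
    simp only [mem_compl_iff, not_not]
    exact ⟨(q j : ℝ), ⟨(q j).2.1.le, (q j).2.2.le⟩, rfl⟩
  · intro x hx r hr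
    have hxc : x ∈ closure (Ioo (0:ℝ) l) := by rw [closure_Ioo hl.ne]; exact hx
    obtain ⟨z, hz, hzx⟩ := Metric.mem_closure_iff.mp hxc r hr
    have hop : IsOpen {y : Ioo (0:ℝ) l | |x - (y : ℝ)| < r} :=
      isOpen_lt (by fun_prop) continuous_const
    have hne : {y : Ioo (0:ℝ) l | |x - (y : ℝ)| < r}.Nonempty :=
      ⟨⟨z, hz⟩, by simpa [Real.dist_eq] using hzx⟩
    obtain ⟨j, hj⟩ := hdense.exists_mem_open hop hne
    refine ⟨(q j : ℝ), (q j).2, hj, ?_⟩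
    rw [happ _ (measurableSet_singleton _)]
    have h1 : (2:ℝ≥0∞)⁻¹ ^ (j + 1) * ({((q j : ℝ) : ℂ)} : Set ℂ).indicator 1 ((q j : ℝ) : ℂ) ≤
        ∑' i : ℕ, (2:ℝ≥0∞)⁻¹ ^ (i + 1) *
          ({((q j : ℝ) : ℂ)} : Set ℂ).indicator 1 ((q i : ℝ) : ℂ) := ENNReal.le_tsum j
    refine lt_of_lt_of_le ?_ h1
    rw [indicator_of_mem (mem_singleton _), Pi.one_apply, mul_one]
    exact ENNReal.pow_pos (by norm_num) _
  · rw [happ _ (measurableSet_singleton _), ENNReal.tsum_eq_zero]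
    intro j
    rw [indicator_of_notMem, mul_zero]
    simp only [mem_singleton_iff, Complex.ofReal_eq_zero]
    exact (q j).2.1.ne'

end Pool.Agent.Q297.RN
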